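import Pool.Agent.Lib.MP_953c35_gt.Game

namespace Pool.Agent.Results.MP_953c35_gt.Main

open Pool.Agent.Lib.MP_953c35_gt Cardinal Order

/-- Negative answer to Q1, for both kinds of strategies at once, in ZFC. -/
theorem result :
    ∃ (X : Type) (_ : TopologicalSpace X) (𝒜 ℬ : Set (Set X)),
      CompactSpace X ∧ T2Space X ∧
      IdealBase 𝒜 ∧ (∀ A ∈ 𝒜, ∃ U, Legal A U) ∧ (∀ A ∈ 𝒜, IsClosed A) ∧
      IdealBase ℬ ∧ ℬ ⊆ 𝒜 ∧ (∀ x, {x} ∈ ℬ) ∧ (∃ 𝒰, GammaCover ℬ 𝒰) ∧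
      TwoWinsMarkov 𝒜 (GammaCover ℬ) ∧ TwoWins 𝒜 (GammaCover ℬ) ∧
      ¬ TwoWinsMarkov 𝒜 (OCover ℬ) ∧ ¬ TwoWins 𝒜 (OCover ℬ) := by
  let κ : Cardinal.{0} := succ ℵ₁
  have hκ : κ.IsRegular := isRegular_succ aleph0_lt_aleph_one.le
  have hcof : cof κ.ord.ToType = κ := by rw [Ordinal.cof_toType, hκ.cof_ord]
  have hcof1 : cof (ℵ₁ : Cardinal.{0}).ord.ToType = ℵ₁ := by
    rw [Ordinal.cof_toType, isRegular_aleph_one.cof_ord]
  have : Nonempty κ.ord.ToType := by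
    rw [← Cardinal.mk_ne_zero_iff, mk_ord_toType]; exact hκ.pos.ne'
  let _ : OrderBot κ.ord.ToType := WellFoundedLT.toOrderBot _
  let _ : ConditionallyCompleteLinearOrderBot κ.ord.ToType :=
    WellFoundedLT.conditionallyCompleteLinearOrderBot _
  let _ : TopologicalSpace κ.ord.ToType := ⊥
  have : DiscreteTopology κ.ord.ToType := ⟨rfl⟩
  obtain ⟨𝒜, ℬ, h⟩ := main_general (α := κ.ord.ToType) (ι := (ℵ₁ : Cardinal.{0}).ord.ToType)
    (by rw [hcof1]; exact aleph0_lt_aleph_one)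
    (by rw [mk_ord_toType]; exact (lt_succ _).trans_eq hcof.symm)
    (fun a => (mk_Iio_toType_ord_lt a).trans_eq hcof.symm)
  exact ⟨OnePoint κ.ord.ToType, inferInstance, 𝒜, ℬ, inferInstance, inferInstance, h⟩

end Pool.Agent.Results.MP_953c35_gt.Main
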